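import Pool.Agent.H53.Lib.R_pool_sql_team_seeded_3997aac3.Q227.CD.NT1

/-!
# Only finitely many places ramify in a finite extension
-/

set_option autoImplicit false
set_option linter.unusedSectionVars false

namespace Pool.Agent.Q227.CD

open NumberField IsDedekindDomain Pool.Agent.W401.Cheb Pool.Agent.W401.Frob

variable {K : Type} [Field K] [NumberField K]

/-- for an algebraic integer `α`, inertia elements at almost all places fix `α` -/
theorem ram_elem (α : 𝓞 (AlgebraicClosure K)) :
    {v : HeightOneSpectrum (𝓞 K) | ∃ τ, IsInert v τ ∧ τ • α ≠ α}.Finite := by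
  classical
  -- the conjugates of α
  have hfin : (Set.range fun σ : GK K => σ • α).Finite := by
    have h1 : ((minpoly K (α : AlgebraicClosure K)).rootSet (AlgebraicClosure K)).Finite :=
      Polynomial.rootSet_finite _ _
    refine Set.Finite.of_finite_image (f := fun x : 𝓞 (AlgebraicClosure K) =>
      (x : AlgebraicClosure K)) (h1.subset ?_) (fun x _ y _ h => RingOfIntegers.ext h)
    rintro _ ⟨_, ⟨σ, rfl⟩, rfl⟩
    change (σ (α : AlgebraicClosure K)) ∈ _
    rw [Polynomial.mem_rootSet]
    refine ⟨minpoly.ne_zero (Algebra.IsIntegral.isIntegral _), ?_⟩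
    rw [Polynomial.aeval_algHom_apply σ, minpoly.aeval, map_zero]
  let C : Finset (𝓞 (AlgebraicClosure K)) := hfin.toFinset.erase α
  let δ : 𝓞 (AlgebraicClosure K) := ∏ β ∈ C, (β - α)
  have hδ : δ ≠ 0 := by
    rw [Finset.prod_ne_zero_iff]
    intro β hβ
    exact sub_ne_zero.2 (Finset.ne_of_mem_erase hβ)
  have hI : (Ideal.span {δ}).comap (algebraMap (𝓞 K) (𝓞 (AlgebraicClosure K))) ≠ ⊥ := by
    apply Ideal.IsIntegral.comap_ne_bot
    rw [Ne, Ideal.span_singleton_eq_bot]
    exact hδ
  refine (Ideal.finite_factors hI).subset ?_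
  rintro v ⟨τ, ⟨Q, hQm, hQv, hτ⟩, hne⟩
  change v.asIdeal ∣ _
  rw [Ideal.dvd_iff_le, ← hQv]
  apply Ideal.comap_mono
  rw [Ideal.span_singleton_le_iff_mem]
  have h1 : τ • α ∈ C := by
    rw [Finset.mem_erase]
    exact ⟨hne, hfin.mem_toFinset.2 ⟨τ, rfl⟩⟩
  exact Q.mem_of_dvd (Finset.dvd_prod_of_mem _ h1) (hτ α)

/-- the places which are ramified in the extension defined by an open subgroup form a finite set -/
theorem ram_finite (N : Subgroup (GK K)) (hN : IsOpen (N : Set (GK K))) :
    {v : HeightOneSpectrum (𝓞 K) | ∃ τ, IsInert v τ ∧ τ ∉ N}.Finite := by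
  have h1 : (N : Set (GK K)) ∈ nhds (1 : GK K) := hN.mem_nhds N.one_mem
  rw [krullTopology_mem_nhds_one_iff] at h1
  obtain ⟨E, hE, hEN⟩ := h1
  haveI := hE
  obtain ⟨a, ha⟩ := Field.exists_primitive_element K E
  have halg : IsAlgebraic (𝓞 K) (a : AlgebraicClosure K) :=
    (IsFractionRing.isAlgebraic_iff (𝓞 K) K (AlgebraicClosure K)).2
      (Algebra.IsAlgebraic.isAlgebraic _)
  obtain ⟨y, hy, hint⟩ := halg.exists_integral_multiple
  have hint' : IsIntegral ℤ (y • (a : AlgebraicClosure K)) := isIntegral_trans (R := ℤ) _ hint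
  let α : 𝓞 (AlgebraicClosure K) := ⟨y • (a : AlgebraicClosure K), hint'⟩
  refine (ram_elem α).subset ?_
  rintro v ⟨τ, hτ, hτN⟩
  refine ⟨τ, hτ, fun h => hτN ?_⟩
  apply hEN
  have h2 : τ (a : AlgebraicClosure K) = a := by
    have h3 : τ (y • (a : AlgebraicClosure K)) = y • (a : AlgebraicClosure K) :=
      congrArg (fun x : 𝓞 (AlgebraicClosure K) => (x : AlgebraicClosure K)) h
    have h4 : ∀ z : AlgebraicClosure K, y • z = algebraMap K (AlgebraicClosure K) (y : K) * z := by
      intro z
      rw [← Algebra.smul_def]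
      exact (algebraMap_smul K y z).symm
    rw [h4, map_mul, AlgEquiv.commutes] at h3
    refine mul_left_cancel₀ ?_ h3
    intro h5
    rw [map_eq_zero_iff _ (algebraMap K (AlgebraicClosure K)).injective] at h5
    exact hy (RingOfIntegers.ext h5)
  -- τ fixes E
  have hEa : E = IntermediateField.adjoin K {(a : AlgebraicClosure K)} := by
    have h3 := congrArg (IntermediateField.map E.val) ha
    rw [IntermediateField.adjoin_map, Set.image_singleton, ← AlgHom.fieldRange_eq_map,
      IntermediateField.fieldRange_val] at h3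
    exact h3.symm
  have h3 : E ≤ IntermediateField.fixedField (Subgroup.zpowers τ) := by
    rw [hEa, IntermediateField.adjoin_le_iff, Set.singleton_subset_iff]
    rintro ⟨σ, hσ⟩
    change σ (a : AlgebraicClosure K) = a
    have h4 : τ ∈ MulAction.stabilizer (GK K) (a : AlgebraicClosure K) := h2
    exact ((Subgroup.zpowers_le.2 h4) hσ)
  rw [IntermediateField.le_iff_le] at h3
  exact h3 (Subgroup.mem_zpowers τ)

end Pool.Agent.Q227.CD
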